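import Mathlib
import Pool.Agent.Lib.MP_5f065d_co.Main
import Pool.Agent.Lib.MP_5f065d_co.Glue
import Pool.Agent.Lib.MP_5f065d_co.Colour
import Pool.Agent.Lib.MP_5f065d_co.NFDec
import Pool.Agent.Lib.MP_5f065d_co.NFExists
import Pool.Agent.Lib.MP_5f065d_co.Merge
import Pool.Agent.Lib.MP_5f065d_co.SL

set_option autoImplicit false

open SimpleGraph

namespace Pool.Agent.Results.MP_5f065d_co.Repartition

universe u

/-- Every connected component of the graph has diameter at most `m`: any two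
vertices of one connected component are joined by a walk of length at most `m`. -/
def ComponentsDiamLE {V : Type u} (H : SimpleGraph V) (m : ℕ) : Prop :=
  ∀ C : H.ConnectedComponent, ∀ x ∈ C.supp, ∀ y ∈ C.supp, ∃ p : H.Walk x y, p.length ≤ m

private theorem comp_iff {V : Type u} (H : SimpleGraph V) (m : ℕ) :
    ComponentsDiamLE H m ↔ ∀ x y : V, H.Reachable x y → H.dist x y ≤ m := by
  constructor
  · intro h x y hxy
    obtain ⟨p, hp⟩ := h (H.connectedComponentMk x) x rfl y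
      (by rw [ConnectedComponent.mem_supp_iff]; exact (ConnectedComponent.eq.2 hxy).symm)
    exact (dist_le p).trans hp
  · intro h C x hx y hy
    have hr : H.Reachable x y := by
      rw [ConnectedComponent.mem_supp_iff] at hx hy
      exact ConnectedComponent.eq.1 (hx.trans hy.symm)
    obtain ⟨p, hp⟩ := hr.exists_walk_length_eq_dist
    exact ⟨p, hp.le.trans (h x y hr)⟩

private theorem small :
    ∀ d : ℕ, 1 ≤ d → ∃ f : ℕ, ∀ (V : Type) [Fintype V] (G F₁ F₂ : SimpleGraph V),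
      F₁.IsAcyclic → F₂.IsAcyclic →
      (∀ u v : V, F₂.Reachable u v → F₂.dist u v ≤ d) →
      G = F₁ ⊔ F₂ →
      ∃ H₁ H₂ : SimpleGraph V, H₁ ⊔ H₂ = G ∧ Disjoint H₁ H₂ ∧
        H₁.IsAcyclic ∧ H₂.IsAcyclic ∧
        (∀ u v : V, H₁.Reachable u v → H₁.dist u v ≤ f) ∧
        (∀ u v : V, H₂.Reachable u v → H₂.dist u v ≤ f) := by
  exact RF.main_of_stage (RF.stage_of RF.colour_step
    (RF.decomp_step RF.reroot RF.merge_step (RF.nfdec (RF.nf_exists RF.slStatement))))

private theorem comp_comap {V : Type u} {W : Type} (e : V ≃ W) (H : SimpleGraph V) (m : ℕ) :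
    ComponentsDiamLE H m → ∀ x y : W, (H.comap e.symm).Reachable x y →
      (H.comap e.symm).dist x y ≤ m := by
  intro h x y hxy
  have φ : H.comap e.symm ≃g H := Iso.comap e.symm H
  have hφ : ∀ a, φ a = φ a := fun _ => rfl
  have hr : H.Reachable (φ x) (φ y) := (Iso.reachable_iff).2 hxy
  obtain ⟨p, hp⟩ := h (H.connectedComponentMk (φ x)) (φ x) rfl (φ y)
    (by rw [ConnectedComponent.mem_supp_iff]; exact (ConnectedComponent.eq.2 hr).symm)
  have q : (H.comap e.symm).Walk (φ.symm (φ x)) (φ.symm (φ y)) := p.map φ.symm.toHom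
  have h2 : (H.comap e.symm).dist (φ.symm (φ x)) (φ.symm (φ y)) ≤ m :=
    (dist_le (p.map φ.symm.toHom)).trans (by rw [Walk.length_map]; exact hp)
  simpa using h2

private theorem comp_back {V : Type u} {W : Type} (e : V ≃ W) (H : SimpleGraph W) (m : ℕ)
    (h : ∀ x y : W, H.Reachable x y → H.dist x y ≤ m) :
    ComponentsDiamLE (H.comap e) m := by
  intro C x hx y hy
  have hr : (H.comap e).Reachable x y := by
    rw [ConnectedComponent.mem_supp_iff] at hx hy
    exact ConnectedComponent.eq.1 (hx.trans hy.symm)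
  have φ : H.comap e ≃g H := Iso.comap e H
  have hr2 : H.Reachable (φ x) (φ y) := (Iso.reachable_iff).2 hr
  obtain ⟨p, hp⟩ := hr2.exists_walk_length_eq_dist
  have hl : (p.map φ.symm.toHom).length ≤ m := by
    rw [Walk.length_map, hp]; exact h _ _ hr2
  have ex : φ.symm (φ x) = x := by simp
  have ey : φ.symm (φ y) = y := by simp
  exact ⟨(p.map φ.symm.toHom).copy ex ey, by rw [Walk.length_copy]; exact hl⟩

theorem result (d : ℕ) (hd : 1 ≤ d) :
    ∃ f : ℕ, ∀ (V : Type u) [Finite V] (G F₁ F₂ : SimpleGraph V),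
      G.edgeSet = F₁.edgeSet ∪ F₂.edgeSet → F₁.IsAcyclic → F₂.IsAcyclic →
      ComponentsDiamLE F₂ d →
      ∃ H₁ H₂ : SimpleGraph V, G.edgeSet = H₁.edgeSet ∪ H₂.edgeSet ∧
        Disjoint H₁.edgeSet H₂.edgeSet ∧ H₁.IsAcyclic ∧ H₂.IsAcyclic ∧
        ComponentsDiamLE H₁ f ∧ ComponentsDiamLE H₂ f := by
  obtain ⟨f, hf⟩ := small d hd
  refine ⟨f, ?_⟩
  intro V _ G F₁ F₂ hG h1 h2 hd2
  have e : V ≃ Fin (Nat.card V) := Finite.equivFin V
  have hG' : G = F₁ ⊔ F₂ := by
    rw [← edgeSet_inj, edgeSet_sup, hG]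
  have a1 : (F₁.comap e.symm).IsAcyclic :=
    (Iso.isAcyclic_iff (Iso.comap e.symm F₁)).2 h1
  have a2 : (F₂.comap e.symm).IsAcyclic :=
    (Iso.isAcyclic_iff (Iso.comap e.symm F₂)).2 h2
  obtain ⟨K₁, K₂, hK, hdis, k1, k2, d1, d2⟩ := hf (Fin (Nat.card V)) (G.comap e.symm)
    (F₁.comap e.symm) (F₂.comap e.symm) a1 a2 (comp_comap e F₂ d hd2)
    (by rw [hG']; ext a b; simp)
  refine ⟨K₁.comap e, K₂.comap e, ?_, ?_, ?_, ?_, comp_back e K₁ f d1, comp_back e K₂ f d2⟩
  · rw [← edgeSet_sup, edgeSet_inj]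
    ext a b
    have : (K₁ ⊔ K₂).Adj (e a) (e b) ↔ (G.comap e.symm).Adj (e a) (e b) := by rw [hK]
    simpa using this.symm
  · rw [disjoint_edgeSet]
    rw [disjoint_iff] at hdis ⊢
    ext a b
    have : (K₁ ⊓ K₂).Adj (e a) (e b) ↔ (⊥ : SimpleGraph (Fin (Nat.card V))).Adj (e a) (e b) := by
      rw [hdis]
    simpa using this
  · exact (Iso.isAcyclic_iff (Iso.comap e K₁)).2 k1
  · exact (Iso.isAcyclic_iff (Iso.comap e K₂)).2 k2

end Pool.Agent.Results.MP_5f065d_co.Repartition
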